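import Pool.Agent.R274.KD.Defs
import Pool.Agent.R274.KD.Mine1
import Pool.Agent.R274.KD.Mine2
import Pool.Agent.R274.KD.Mine3

/-!
# MP_8b22d5_an: the optimal delay `κ*` is at most `(3 + π) / 2 < π`
-/

set_option autoImplicit false

namespace Pool.Agent.Results.MP_8b22d5_an.UpperBound

/-- Every admissible `κ` (in the sense of the problem) is at most `(3 + π) / 2`, which is less
than the known bound `π`. -/
theorem result : (∀ κ : ℝ, Pool.Agent.R274.KD.Admissible κ → κ ≤ (3 + Real.pi) / 2) ∧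
    (3 + Real.pi) / 2 < Real.pi :=
  ⟨Pool.Agent.R274.KD.kf' Pool.Agent.R274.KD.kx Pool.Agent.R274.KD.ke Pool.Agent.R274.KD.km
    Pool.Agent.R274.KD.ko, by linarith [Real.pi_gt_three]⟩

end Pool.Agent.Results.MP_8b22d5_an.UpperBound
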